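import Mathlib
import Pool.Agent.N773.ML.Alg

/-!
# An algorithm for the minimum-length multiples of nonmonic irreducible polynomials

There is a computable function which maps the list of the coefficients of any nonmonic irreducible integer polynomial
`P` of positive degree to the list of the coefficients of a minimum-length multiple of `P`. The zeros of `P` may lie
anywhere; in particular this covers the class of the question (all complex zeros in the closed unit disc).

The proof: let `p` be a prime divisor of the leading coefficient, `F` a minimum-length multiple of least degree. If
`F = X ^ n H + G` with `H, G ≠ 0` and `deg G < n`, then `P` does not divide `H`, so `R = u P + v H` for the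
resultant `R ≠ 0`, and `P` divides `R X ^ n + v G`. As `P` is primitive and `p` divides its leading coefficient, a
high power of `p` divides `R` if `n - deg G` is large. So the gaps between the exponents of `F` are bounded in terms of
`P` and of the degree of `H`, and the degree of `F` is bounded by an explicit primitive recursive function of `P`.
-/

set_option autoImplicit false

open Polynomial

namespace Pool.Agent.Results.MP_e7878a_nt.NonmonicAlgorithm

/-- The polynomial whose coefficients are the entries of the list, beginning with the constant term. -/
noncomputable def poly (l : List ℤ) : ℤ[X] := ∑ i ∈ Finset.range l.length, C (l.getD i 0) * X ^ i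

/-- The length of a polynomial, the sum of the absolute values of its coefficients. -/
def length (F : ℤ[X]) : ℤ := ∑ i ∈ F.support, |F.coeff i|

/-- `Q` is a minimum-length multiple of `P`: it is nonzero, of the form `P T`, and `length Q` is smallest among all
nonzero polynomials of this form. -/
def IsMinimumLengthMultiple (P Q : ℤ[X]) : Prop :=
  (Q ≠ 0 ∧ ∃ T : ℤ[X], Q = P * T) ∧ ∀ T : ℤ[X], P * T ≠ 0 → length Q ≤ length (P * T)

lemma length_eq (F : ℤ[X]) : length F = Pool.Agent.N773.ML.len F := by
  unfold length Pool.Agent.N773.ML.len
  push_cast
  exact Finset.sum_congr rfl fun i _ => rfl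

/-- There is an algorithm `A` which computes a minimum-length multiple of every nonmonic irreducible polynomial of
positive degree, from its list of coefficients. -/
theorem result : ∃ A : List ℤ → List ℤ, Computable A ∧
    ∀ l : List ℤ, Irreducible (poly l) → 1 ≤ (poly l).natDegree →
      (poly l).leadingCoeff ≠ 1 → (poly l).leadingCoeff ≠ -1 →
      IsMinimumLengthMultiple (poly l) (poly (A l)) := by
  refine ⟨Pool.Agent.N773.ML.alg, Pool.Agent.N773.ML.prim_alg.to_comp, fun l hirr hdeg h1 h2 => ?_⟩
  have hlc : ¬ IsUnit (poly l).leadingCoeff := by
    rw [Int.isUnit_iff]
    rintro (h | h)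
    · exact h1 h
    · exact h2 h
  obtain ⟨h3, h4, h5⟩ := Pool.Agent.N773.ML.alg_spec l hirr (by
    change (poly l).natDegree ≠ 0
    omega) hlc
  refine ⟨⟨h3, h4⟩, fun T hT => ?_⟩
  rw [length_eq, length_eq]
  exact_mod_cast h5 (poly l * T) hT (dvd_mul_right _ _)

end Pool.Agent.Results.MP_e7878a_nt.NonmonicAlgorithm
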